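import Pool.Agent.H601R2.PP
import Pool.Agent.H578R2.Med.NPClos
import Pool.Agent.H622R2.CoNP
import Pool.Agent.H673R2.Search
import Pool.Agent.NPC.Classes
import Pool.Agent.H642R2.TMSim

/-!
# MP_298bb3_lc: factors of graphs with expanding independent sets

Let `H` be a graph with an independent set of `α` vertices and `β` further vertices, such that
`β |I| ≤ α |S|` for all disjoint sets `I`, `S` for which all neighbours of `I` are in `S`, with
equality only if `I` and `S` are empty or `I ∪ S` is the set of all vertices. This holds for the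
connected regular graphs with an independent set of at least `(|H| - 1) / 2` vertices (so for all
cycles), and for the connected bipartite graphs in which each edge belongs to a perfect matching.
Let `c < β / (α + β)`. The `H`-factor problem in arbitrary graphs reduces in polynomial time to the
`H`-factor problem in graphs with minimum degree at least `c n`: add a set `A` of `β L` vertices that
are adjacent to all other vertices and an independent set `B` of `α L` vertices that are adjacent to
`A` only. In an `H`-factor of the new graph each copy is contained in `A ∪ B` or in the given graph.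
-/

set_option autoImplicit false

namespace Pool.Agent.Results.MP_298bb3_lc.TightGraphs

open Pool.Agent.NPC Pool.Agent.H673R2

/-! ### Factors -/

/-- `G` has an `H`-factor: there are subgraphs isomorphic to `H` (the subgraph with number `i` is given
by the injective map `u ↦ F (i, u)`, which maps edges of `H` to edges of `G`), such that each vertex
of `G` belongs to exactly one of them. -/
def HasFactor {W V : Type} (H : SimpleGraph W) (G : SimpleGraph V) : Prop :=
  ∃ (T : Type) (F : T × W ≃ V), ∀ (i : T) (u v : W), H.Adj u v → G.Adj (F (i, u)) (F (i, v))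

/-- the graph `G` with a set of `NA` vertices that are adjacent to all other vertices and an
independent set of `NB` vertices added -/
def ext {V : Type} (G : SimpleGraph V) (NA NB : ℕ) : SimpleGraph (V ⊕ (Fin NA ⊕ Fin NB)) where
  Adj x y := x ≠ y ∧ ((∃ a, x = Sum.inr (Sum.inl a)) ∨ (∃ a, y = Sum.inr (Sum.inl a)) ∨
    ∃ u v, x = Sum.inl u ∧ y = Sum.inl v ∧ G.Adj u v)
  symm := ⟨by
    rintro x y ⟨h1, h2 | h2 | ⟨u, v, h2, h3, h4⟩⟩
    · exact ⟨h1.symm, Or.inr (Or.inl h2)⟩
    · exact ⟨h1.symm, Or.inl h2⟩
    · exact ⟨h1.symm, Or.inr (Or.inr ⟨v, u, h3, h2, h4.symm⟩)⟩⟩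
  loopless := ⟨by
    rintro x ⟨h, _⟩
    exact h rfl⟩

section H

variable {W : Type} [Fintype W] [DecidableEq W] {H : SimpleGraph W} [DecidableRel H.Adj] {d : ℕ}

theorem card_le (hd : 0 < d) (hreg : H.IsRegularOfDegree d) {I S : Finset W}
    (hIS : ∀ u ∈ I, ∀ v, H.Adj u v → v ∈ S) : I.card ≤ S.card ∧
      (I.card = S.card → ∀ v ∈ S, ∀ u, H.Adj v u → u ∈ I) := by
  have h0 : ∀ u, (H.neighborFinset u).card = d := fun u => hreg u
  have h1 : ∑ u ∈ I, (H.neighborFinset u).card = I.card * d := by
    rw [Finset.sum_congr rfl (fun u _ => h0 u), Finset.sum_const, smul_eq_mul]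
  have h2 : ∑ v ∈ S, (H.neighborFinset v).card = S.card * d := by
    rw [Finset.sum_congr rfl (fun u _ => h0 u), Finset.sum_const, smul_eq_mul]
  have h3 : ∑ u ∈ I, (H.neighborFinset u).card = ∑ v ∈ S, (I.filter (fun u => H.Adj u v)).card := by
    have h4 : ∀ u ∈ I, (H.neighborFinset u).card = (S.filter (fun v => H.Adj u v)).card := by
      intro u hu
      congr 1
      ext v
      rw [SimpleGraph.mem_neighborFinset, Finset.mem_filter]
      exact ⟨fun h => ⟨hIS u hu v h, h⟩, fun h => h.2⟩
    rw [Finset.sum_congr rfl h4]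
    simp only [Finset.card_filter]
    exact Finset.sum_comm
  have h5 : ∀ v ∈ S, (I.filter (fun u => H.Adj u v)).card ≤ (H.neighborFinset v).card := by
    intro v _
    refine Finset.card_le_card fun u hu => ?_
    rw [Finset.mem_filter] at hu
    rw [SimpleGraph.mem_neighborFinset]
    exact hu.2.symm
  have h6 : I.card * d ≤ S.card * d := by
    rw [← h1, h3, ← h2]
    exact Finset.sum_le_sum h5
  refine ⟨Nat.le_of_mul_le_mul_right h6 hd, fun heq v hv u huv => ?_⟩
  by_contra hu
  have h7 : ∑ v ∈ S, (I.filter (fun u => H.Adj u v)).card < ∑ v ∈ S, (H.neighborFinset v).card := by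
    refine Finset.sum_lt_sum h5 ⟨v, hv, ?_⟩
    refine Finset.card_lt_card ⟨fun x hx => ?_, fun hsub => ?_⟩
    · rw [Finset.mem_filter] at hx
      rw [SimpleGraph.mem_neighborFinset]
      exact hx.2.symm
    · have h8 := hsub ((SimpleGraph.mem_neighborFinset _ _ _).2 huv)
      exact hu (Finset.mem_filter.1 h8).1
  rw [← h3, h1, h2, heq] at h7
  exact lt_irrefl _ h7

/-- If all neighbours of `I` are in `S` then `|I| ≤ |S|`, with equality only if both sets are empty
or if each vertex is in `I` or in `S`. -/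
def Tight {W : Type} (H : SimpleGraph W) : Prop :=
  ∀ I S : Finset W, (∀ u ∈ I, ∀ v, H.Adj u v → v ∈ S) → I.card ≤ S.card ∧
    (I.card = S.card → (I = ∅ ∧ S = ∅) ∨ ∀ w, w ∈ I ∨ w ∈ S)

theorem tight_of_closed {W : Type} {H : SimpleGraph W} (hconn : H.Connected)
    (h : ∀ I S : Finset W, (∀ u ∈ I, ∀ v, H.Adj u v → v ∈ S) → I.card ≤ S.card ∧
      (I.card = S.card → ∀ v ∈ S, ∀ u, H.Adj v u → u ∈ I)) : Tight H := by
  intro I S hIS
  refine ⟨(h I S hIS).1, fun hc => ?_⟩
  have hcl := (h I S hIS).2 hc
  by_cases hS : S = ∅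
  · left
    refine ⟨?_, hS⟩
    rw [hS, Finset.card_empty] at hc
    exact Finset.card_eq_zero.1 hc
  · right
    obtain ⟨s, hs⟩ := Finset.nonempty_iff_ne_empty.2 hS
    intro w
    obtain ⟨p⟩ := hconn.preconnected s w
    have key : ∀ {a b : W} (q : H.Walk a b), (a ∈ I ∨ a ∈ S) → (b ∈ I ∨ b ∈ S) := by
      intro a b q
      induction q with
      | nil => exact id
      | cons hadj q ih =>
        intro ha
        apply ih
        rcases ha with ha | ha
        · exact Or.inr (hIS _ ha _ hadj)
        · exact Or.inl (hcl _ ha _ hadj)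
    exact key p (Or.inr hs)

/-- connected regular graphs of positive degree -/
theorem tight_of_regular (hd : 0 < d) (hreg : H.IsRegularOfDegree d) (hconn : H.Connected) :
    Tight H := tight_of_closed hconn fun _ _ hIS => card_le hd hreg hIS

/-- connected graphs with at least one edge in which each edge is in a perfect matching -/
theorem tight_of_matchings {W : Type} {H : SimpleGraph W} (hconn : H.Connected)
    (he : ∃ u v, H.Adj u v)
    (hM : ∀ u v, H.Adj u v → ∃ M : H.Subgraph, M.IsPerfectMatching ∧ M.Adj u v) : Tight H := by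
  classical
  -- perfect matchings as involutions
  have hM' : ∀ u v, H.Adj u v → ∃ f : W → W, (∀ w, H.Adj w (f w)) ∧ (∀ w, f (f w) = w) ∧ f u = v := by
    intro u v huv
    obtain ⟨M, hMp, hMuv⟩ := hM u v huv
    rw [SimpleGraph.Subgraph.isPerfectMatching_iff] at hMp
    choose f hf hf' using hMp
    refine ⟨f, fun w => (hf w).adj_sub, fun w => ?_, ?_⟩
    · exact (hf' (f w) w (hf w).symm).symm
    · exact (hf' u v hMuv).symm
  refine tight_of_closed hconn fun I S hIS => ⟨?_, fun hc => ?_⟩
  · obtain ⟨u, v, huv⟩ := he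
    obtain ⟨f, hf, hff, -⟩ := hM' u v huv
    refine Finset.card_le_card_of_injOn f (fun w hw => hIS w hw _ (hf w)) ?_
    intro a _ b _ hab
    rw [← hff a, ← hff b, hab]
  · intro v hv u hvu
    obtain ⟨f, hf, hff, hfv⟩ := hM' v u hvu
    have himg : I.image f = S := by
      refine Finset.eq_of_subset_of_card_le ?_ ?_
      · intro x hx
        rw [Finset.mem_image] at hx
        obtain ⟨w, hw, rfl⟩ := hx
        exact hIS w hw _ (hf w)
      · rw [Finset.card_image_of_injective, hc]
        intro a b hab
        rw [← hff a, ← hff b, hab]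
    rw [← himg, Finset.mem_image] at hv
    obtain ⟨w, hw, hwv⟩ := hv
    rw [← hfv, ← hwv, hff]
    exact hw

/-- `β |I| ≤ α |S|` for all disjoint sets `I`, `S` such that all neighbours of `I` are in `S`, with
equality only if both sets are empty or if each vertex is in `I` or in `S` -/
def Exp {W : Type} (H : SimpleGraph W) (α β : ℕ) : Prop :=
  ∀ I S : Finset W, Disjoint I S → (∀ u ∈ I, ∀ v, H.Adj u v → v ∈ S) →
    β * I.card ≤ α * S.card ∧
      (β * I.card = α * S.card → (I = ∅ ∧ S = ∅) ∨ ∀ w, w ∈ I ∨ w ∈ S)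

theorem exp_of_tight {W : Type} {H : SimpleGraph W} (h : Tight H) {α : ℕ} (hα : 0 < α) :
    Exp H α α := by
  intro I S _ hIS
  have h1 := h I S hIS
  exact ⟨Nat.mul_le_mul_left _ h1.1, fun h2 => h1.2 (Nat.eq_of_mul_eq_mul_left hα h2)⟩

theorem exp_odd {W : Type} [Fintype W] {H : SimpleGraph W} (h : Tight H) {α : ℕ} (hα : 0 < α)
    (hW : Fintype.card W = 2 * α + 1) : Exp H α (α + 1) := by
  classical
  intro I S hdis hIS
  obtain ⟨h1, h2⟩ := h I S hIS
  have h3 : I.card + S.card ≤ 2 * α + 1 := by
    rw [← Finset.card_union_of_disjoint hdis, ← hW]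
    exact Finset.card_le_univ _
  rcases Nat.lt_or_eq_of_le h1 with hlt | heq
  · have h4 : I.card ≤ α := by omega
    have h5 : α * (I.card + 1) ≤ α * S.card := Nat.mul_le_mul_left _ hlt
    have h6 : (α + 1) * I.card = α * I.card + I.card := by ring
    have h7 : α * (I.card + 1) = α * I.card + α := by ring
    refine ⟨by omega, fun he => Or.inr ?_⟩
    have h8 : I.card = α := by omega
    have h9 : α * S.card = α * (α + 1) := by rw [← he, h8]; ring
    have h10 : S.card = α + 1 := Nat.eq_of_mul_eq_mul_left hα h9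
    have h11 : I ∪ S = Finset.univ := by
      refine Finset.eq_univ_of_card _ ?_
      rw [Finset.card_union_of_disjoint hdis, hW, h8, h10]
      ring
    intro w
    have := Finset.mem_univ w
    rw [← h11, Finset.mem_union] at this
    exact this
  · rcases h2 heq with ⟨rfl, rfl⟩ | hall
    · exact ⟨by simp, fun _ => Or.inl ⟨rfl, rfl⟩⟩
    · exfalso
      have h11 : I ∪ S = Finset.univ := by
        ext w
        rw [Finset.mem_union]
        exact ⟨fun _ => Finset.mem_univ w, fun _ => hall w⟩
      have h12 := Finset.card_union_of_disjoint hdis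
      rw [h11, Finset.card_univ, hW] at h12
      omega

omit [DecidableEq W] [DecidableRel H.Adj] in
theorem factor_of_ext {V : Type} [Finite V] {G : SimpleGraph V} {α β L : ℕ} [Nonempty W]
    (ht : Exp H α β) (h : HasFactor H (ext G (β * L) (α * L))) : HasFactor H G := by
  classical
  obtain ⟨T, F, hF⟩ := h
  have : Fintype V := Fintype.ofFinite V
  have : Finite (T × W) := Finite.of_equiv _ F.symm
  have : Finite T := Finite.of_surjective (fun p : T × W => p.1)
    (fun i => ⟨(i, Classical.arbitrary W), rfl⟩)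
  have : Fintype T := Fintype.ofFinite T
  let I : T → Finset W := fun i => Finset.univ.filter (fun w => ∃ b, F (i, w) = Sum.inr (Sum.inr b))
  let S : T → Finset W := fun i => Finset.univ.filter (fun w => ∃ a, F (i, w) = Sum.inr (Sum.inl a))
  have mI : ∀ i w, w ∈ I i ↔ ∃ b, F (i, w) = Sum.inr (Sum.inr b) := by
    intro i w
    simp [I]
  have mS : ∀ i w, w ∈ S i ↔ ∃ a, F (i, w) = Sum.inr (Sum.inl a) := by
    intro i w
    simp [S]
  have hIS : ∀ i, ∀ u ∈ I i, ∀ v, H.Adj u v → v ∈ S i := by
    intro i u hu v huv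
    obtain ⟨b, hb⟩ := (mI i u).1 hu
    have h1 := hF i u v huv
    rw [hb] at h1
    rcases h1.2 with ⟨a, h2⟩ | h2 | ⟨x, y, h2, _⟩
    · simp at h2
    · exact (mS i v).2 h2
    · simp at h2
  have hdis : ∀ i, Disjoint (I i) (S i) := by
    intro i
    rw [Finset.disjoint_left]
    intro w h1 h2
    obtain ⟨b, hb⟩ := (mI i w).1 h1
    obtain ⟨a, ha⟩ := (mS i w).1 h2
    rw [hb] at ha
    simp at ha
  have hsumI : ∑ i, (I i).card = α * L := by
    have h1 : ∑ i, (I i).card = ∑ p : T × W, (if ∃ b, F p = Sum.inr (Sum.inr b) then 1 else 0) := by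
      rw [Fintype.sum_prod_type]
      refine Finset.sum_congr rfl fun i _ => ?_
      rw [Finset.card_filter]
    rw [h1, Equiv.sum_comp F (fun x => if ∃ b, x = Sum.inr (Sum.inr b) then 1 else 0),
      Fintype.sum_sum_type, Fintype.sum_sum_type]
    simp
  have hsumS : ∑ i, (S i).card = β * L := by
    have h1 : ∑ i, (S i).card = ∑ p : T × W, (if ∃ b, F p = Sum.inr (Sum.inl b) then 1 else 0) := by
      rw [Fintype.sum_prod_type]
      refine Finset.sum_congr rfl fun i _ => ?_
      rw [Finset.card_filter]
    rw [h1, Equiv.sum_comp F (fun x => if ∃ b, x = Sum.inr (Sum.inl b) then 1 else 0),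
      Fintype.sum_sum_type, Fintype.sum_sum_type]
    simp
  have heq : ∀ i, β * (I i).card = α * (S i).card := by
    have h1 := (Finset.sum_eq_sum_iff_of_le (s := Finset.univ) (f := fun i => β * (I i).card)
      (g := fun i => α * (S i).card) (fun i _ => (ht _ _ (hdis i) (hIS i)).1)).1
      (by rw [← Finset.mul_sum, ← Finset.mul_sum, hsumI, hsumS]; ring)
    exact fun i => h1 i (Finset.mem_univ i)
  have hcase := fun i => (ht _ _ (hdis i) (hIS i)).2 (heq i)
  have hg : ∀ p : {i // I i = ∅ ∧ S i = ∅} × W, ∃ v, F (p.1.1, p.2) = Sum.inl v := by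
    rintro ⟨⟨i, hi, hi'⟩, w⟩
    rcases hx : F (i, w) with v | a | b
    · exact ⟨v, rfl⟩
    · have := (mS i w).2 ⟨a, hx⟩
      rw [hi'] at this
      exact absurd this (Finset.notMem_empty w)
    · have := (mI i w).2 ⟨b, hx⟩
      rw [hi] at this
      exact absurd this (Finset.notMem_empty w)
  choose g hg using hg
  refine ⟨{i // I i = ∅ ∧ S i = ∅}, Equiv.ofBijective g ⟨?_, ?_⟩, ?_⟩
  · rintro ⟨⟨i, hi⟩, w⟩ ⟨⟨i', hi'⟩, w'⟩ h
    have h1 := (hg (⟨i, hi⟩, w)).trans ((congrArg Sum.inl h).trans (hg (⟨i', hi'⟩, w')).symm)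
    have h2 := F.injective h1
    simp only [Prod.mk.injEq] at h2
    obtain ⟨rfl, rfl⟩ := h2
    rfl
  · intro v
    obtain ⟨⟨i, w⟩, hp⟩ := F.surjective (Sum.inl v)
    have h1 : I i = ∅ ∧ S i = ∅ := by
      rcases hcase i with h | h
      · exact h
      · exfalso
        rcases h w with h | h
        · obtain ⟨b, hb⟩ := (mI i w).1 h
          rw [hp] at hb
          simp at hb
        · obtain ⟨b, hb⟩ := (mS i w).1 h
          rw [hp] at hb
          simp at hb
    refine ⟨(⟨i, h1⟩, w), ?_⟩
    have h2 := (hg (⟨i, h1⟩, w)).symm.trans hp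
    exact Sum.inl_injective h2
  · rintro ⟨i, hi⟩ u v huv
    have h1 := hF i u v huv
    have e1 := hg (⟨i, hi⟩, u)
    have e2 := hg (⟨i, hi⟩, v)
    simp only at e1 e2
    rw [e1, e2] at h1
    rcases h1.2 with ⟨a, h2⟩ | ⟨a, h2⟩ | ⟨x, y, h2, h3, h4⟩
    · simp at h2
    · simp at h2
    · rw [Sum.inl.injEq] at h2 h3
      change G.Adj (g (⟨i, hi⟩, u)) (g (⟨i, hi⟩, v))
      rw [h2, h3]
      exact h4

omit [DecidableEq W] [DecidableRel H.Adj] in
theorem ext_of_factor {V : Type} {G : SimpleGraph V} {α β L : ℕ} {χ : W → Bool}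
    (hχ : ∀ u v, H.Adj u v → χ u = true ∨ χ v = true)
    (h1 : Fintype.card {w // χ w = true} = β) (h2 : Fintype.card {w // ¬ χ w = true} = α)
    (h : HasFactor H G) : HasFactor H (ext G (β * L) (α * L)) := by
  obtain ⟨T, F, hF⟩ := h
  let e1 : Fin L × {w // χ w = true} ≃ Fin (β * L) :=
    Fintype.equivFinOfCardEq (by rw [Fintype.card_prod, Fintype.card_fin, mul_comm, h1])
  let e2 : Fin L × {w // ¬ χ w = true} ≃ Fin (α * L) :=
    Fintype.equivFinOfCardEq (by rw [Fintype.card_prod, Fintype.card_fin, mul_comm, h2])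
  let E2 : Fin L × W ≃ Fin (β * L) ⊕ Fin (α * L) :=
    ((Equiv.refl (Fin L)).prodCongr (Equiv.sumCompl (fun w => χ w = true)).symm).trans
      ((Equiv.prodSumDistrib _ _ _).trans (Equiv.sumCongr e1 e2))
  have hE2 : ∀ l w, χ w = true → ∃ a, E2 (l, w) = Sum.inl a := by
    intro l w hw
    refine ⟨e1 (l, ⟨w, hw⟩), ?_⟩
    simp only [E2, Equiv.trans_apply, Equiv.prodCongr_apply, Prod.map_apply, Equiv.refl_apply]
    rw [Equiv.sumCompl_symm_apply_of_pos (p := fun w => χ w = true) hw]
    rfl
  refine ⟨T ⊕ Fin L, (Equiv.sumProdDistrib T (Fin L) W).trans (Equiv.sumCongr F E2), ?_⟩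
  rintro (i | l) u v huv
  · change (ext G _ _).Adj (Sum.inl (F (i, u))) (Sum.inl (F (i, v)))
    have h3 := hF i u v huv
    exact ⟨fun h => h3.ne (Sum.inl_injective h), Or.inr (Or.inr ⟨_, _, rfl, rfl, h3⟩)⟩
  · change (ext G _ _).Adj (Sum.inr (E2 (l, u))) (Sum.inr (E2 (l, v)))
    refine ⟨fun h => ?_, ?_⟩
    · have h3 := E2.injective (Sum.inr_injective h)
      exact huv.ne (congrArg Prod.snd h3)
    · rcases hχ u v huv with hu | hv
      · obtain ⟨a, ha⟩ := hE2 l u hu
        exact Or.inl ⟨a, by rw [ha]⟩
      · obtain ⟨a, ha⟩ := hE2 l v hv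
        exact Or.inr (Or.inl ⟨a, by rw [ha]⟩)

end H

theorem factor_congr {W V V' : Type} {H : SimpleGraph W} {G : SimpleGraph V} {G' : SimpleGraph V'}
    (e : V ≃ V') (he : ∀ u v, G.Adj u v ↔ G'.Adj (e u) (e v)) : HasFactor H G ↔ HasFactor H G' := by
  constructor
  · rintro ⟨T, F, hF⟩
    exact ⟨T, F.trans e, fun i u v h => (he _ _).1 (hF i u v h)⟩
  · rintro ⟨T, F, hF⟩
    refine ⟨T, F.trans e.symm, fun i u v h => (he _ _).2 ?_⟩
    simp only [Equiv.trans_apply, Equiv.apply_symm_apply]
    exact hF i u v h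

theorem ext_deg {V : Type} (G : SimpleGraph V) (NA NB : ℕ) (hN : 0 < NA → 0 < NB)
    (x : V ⊕ (Fin NA ⊕ Fin NB)) :
    ∃ f : Fin NA → V ⊕ (Fin NA ⊕ Fin NB), Function.Injective f ∧ ∀ a, (ext G NA NB).Adj x (f a) := by
  rcases x with v | a | b
  · exact ⟨fun a => Sum.inr (Sum.inl a), fun a b h => by simpa using h,
      fun a => ⟨by simp, Or.inr (Or.inl ⟨a, rfl⟩)⟩⟩
  · have hb : 0 < NB := hN (by have := a.isLt; omega)
    refine ⟨fun a' => if a' = a then Sum.inr (Sum.inr ⟨0, hb⟩) else Sum.inr (Sum.inl a'), ?_, ?_⟩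
    · intro x y h
      simp only at h
      split_ifs at h with h1 h2 h2
      · rw [h1, h2]
      · simp at h
      · simp at h
      · simpa using h
    · intro a'
      refine ⟨?_, Or.inl ⟨a, rfl⟩⟩
      simp only
      split_ifs with h1
      · simp
      · intro h
        simp only [Sum.inr.injEq, Sum.inl.injEq] at h
        exact h1 h.symm
  · exact ⟨fun a => Sum.inr (Sum.inl a), fun a b h => by simpa using h,
      fun a => ⟨by simp, Or.inr (Or.inl ⟨a, rfl⟩)⟩⟩

/-! ### Adjacency matrices -/

/-- A square matrix with entries `true` and `false`, given by its rows. -/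
abbrev Inst : Type := List (List Bool)

/-- The entry in row `u` and column `v`. -/
def entry (A : Inst) (u v : ℕ) : Bool := (A.getD u []).getD v false

/-- `A` is the adjacency matrix of a finite simple graph: it is square and symmetric, and the
entries on the diagonal are `false`. -/
def Valid (A : Inst) : Prop :=
  (∀ r ∈ A, r.length = A.length) ∧ (∀ u v, entry A u v = entry A v u) ∧ ∀ u, entry A u u = false

/-- The graph with adjacency matrix `A` (the vertices are `0, …, n - 1`, where `n` is the number of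
rows). -/
def graph (A : Inst) : SimpleGraph (Fin A.length) :=
  SimpleGraph.fromRel (fun u v => entry A u v = true)

/-- The graph with adjacency matrix `A` has minimum degree at least `c n`. -/
def MinDeg (c : ℝ) (A : Inst) : Prop :=
  ∀ u : Fin A.length, c * (A.length : ℝ) ≤ (((graph A).neighborSet u).ncard : ℝ)

/-- adjacency in the new graph -/
def adjE (m N : ℕ) (A : Inst) (u v : ℕ) : Bool :=
  decide (u ≠ v ∧ ((m ≤ u ∧ u < m + N) ∨ (m ≤ v ∧ v < m + N) ∨
    (u < m ∧ v < m ∧ entry A u v = true)))

/-- the new adjacency matrix -/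
def pad (k l : ℕ) (A : Inst) : Inst :=
  (List.range (A.length + (k * A.length + l * A.length))).map (fun u =>
    (List.range (A.length + (k * A.length + l * A.length))).map (fun v =>
      adjE A.length (k * A.length) A u v))

theorem pad_length (k l : ℕ) (A : Inst) :
    (pad k l A).length = A.length + (k * A.length + l * A.length) := by
  simp [pad]

theorem entry_pad (k l : ℕ) (A : Inst) (u v : ℕ) : entry (pad k l A) u v =
    (decide (u < A.length + (k * A.length + l * A.length)) &&
      decide (v < A.length + (k * A.length + l * A.length)) &&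
      adjE A.length (k * A.length) A u v) := by
  unfold entry pad
  by_cases hu : u < A.length + (k * A.length + l * A.length)
  · by_cases hv : v < A.length + (k * A.length + l * A.length)
    · simp [List.getD_eq_getElem?_getD, hu, hv]
    · simp [List.getD_eq_getElem?_getD, hu, hv]
  · simp [List.getD_eq_getElem?_getD, hu]

theorem adjE_comm {A : Inst} (hA : Valid A) (m N u v : ℕ) : adjE m N A u v = adjE m N A v u := by
  unfold adjE
  rw [decide_eq_decide, hA.2.1 u v]
  constructor
  · rintro ⟨h1, h2⟩
    exact ⟨h1.symm, by tauto⟩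
  · rintro ⟨h1, h2⟩
    exact ⟨h1.symm, by tauto⟩

theorem pad_valid {k l : ℕ} {A : Inst} (hA : Valid A) : Valid (pad k l A) := by
  refine ⟨?_, ?_, ?_⟩
  · intro r hr
    rw [pad_length]
    unfold pad at hr
    rw [List.mem_map] at hr
    obtain ⟨u, _, rfl⟩ := hr
    simp
  · intro u v
    rw [entry_pad, entry_pad, adjE_comm hA, Bool.and_comm (decide (u < _))]
  · intro u
    rw [entry_pad]
    simp [adjE]

theorem graph_adj {A : Inst} (hA : Valid A) (u v : Fin A.length) :
    (graph A).Adj u v ↔ entry A u v = true := by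
  unfold graph
  rw [SimpleGraph.fromRel_adj, hA.2.1 v u, or_self]
  constructor
  · exact fun h => h.2
  · intro h
    refine ⟨?_, h⟩
    rintro rfl
    rw [hA.2.2] at h
    exact absurd h (by simp)

/-- the numbering of the vertices -/
def num (m N N' : ℕ) : Fin m ⊕ (Fin N ⊕ Fin N') ≃ Fin (m + (N + N')) :=
  (Equiv.sumCongr (Equiv.refl _) finSumFinEquiv).trans finSumFinEquiv

/-- the isomorphism -/
def iso (k l : ℕ) (A : Inst) :
    Fin A.length ⊕ (Fin (k * A.length) ⊕ Fin (l * A.length)) ≃ Fin (pad k l A).length :=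
  (num A.length (k * A.length) (l * A.length)).trans (finCongr (pad_length k l A).symm)

theorem iso_inl (k l : ℕ) (A : Inst) (u : Fin A.length) : (iso k l A (Sum.inl u) : ℕ) = u := by
  simp [iso, num]

theorem iso_a (k l : ℕ) (A : Inst) (a : Fin (k * A.length)) :
    (iso k l A (Sum.inr (Sum.inl a)) : ℕ) = A.length + a := by
  simp [iso, num]

theorem iso_b (k l : ℕ) (A : Inst) (b : Fin (l * A.length)) :
    (iso k l A (Sum.inr (Sum.inr b)) : ℕ) = A.length + (k * A.length + b) := by
  simp [iso, num]
  try omega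

theorem iso_adj {k l : ℕ} {A : Inst} (hA : Valid A)
    (x y : Fin A.length ⊕ (Fin (k * A.length) ⊕ Fin (l * A.length))) :
    (ext (graph A) (k * A.length) (l * A.length)).Adj x y ↔
      (graph (pad k l A)).Adj (iso k l A x) (iso k l A y) := by
  rw [graph_adj (pad_valid hA), entry_pad]
  have hx : ((iso k l A x : Fin _) : ℕ) < A.length + (k * A.length + l * A.length) := by
    rw [← pad_length]
    exact (iso k l A x).isLt
  have hy : ((iso k l A y : Fin _) : ℕ) < A.length + (k * A.length + l * A.length) := by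
    rw [← pad_length]
    exact (iso k l A y).isLt
  have hne : ((iso k l A x : Fin _) : ℕ) ≠ ((iso k l A y : Fin _) : ℕ) ↔ x ≠ y := by
    rw [not_iff_not]
    exact ⟨fun h => (iso k l A).injective (Fin.ext h), fun h => by rw [h]⟩
  simp only [hx, hy, decide_true, Bool.true_and]
  unfold adjE
  rw [decide_eq_true_eq, hne]
  change (x ≠ y ∧ _) ↔ _
  refine and_congr_right fun _ => ?_
  have ha : ∀ z : Fin A.length ⊕ (Fin (k * A.length) ⊕ Fin (l * A.length)),
      (∃ a, z = Sum.inr (Sum.inl a)) ↔
        (A.length ≤ (iso k l A z : ℕ) ∧ (iso k l A z : ℕ) < A.length + k * A.length) := by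
    rintro (u | a | b)
    · rw [iso_inl]
      have := u.isLt
      simp only [reduceCtorEq, exists_false, false_iff]
      omega
    · rw [iso_a]
      have := a.isLt
      simp only [Sum.inr.injEq, Sum.inl.injEq, exists_eq', true_iff]
      omega
    · rw [iso_b]
      simp only [Sum.inr.injEq, reduceCtorEq, exists_false, false_iff]
      omega
  rw [← ha x, ← ha y]
  refine or_congr_right (or_congr_right ?_)
  constructor
  · rintro ⟨u, v, rfl, rfl, h⟩
    rw [iso_inl, iso_inl]
    exact ⟨u.isLt, v.isLt, (graph_adj hA u v).1 h⟩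
  · rintro ⟨h1, h2, h3⟩
    rcases x with u | a | b
    · rcases y with v | a | b
      · rw [iso_inl, iso_inl] at h3
        exact ⟨u, v, rfl, rfl, (graph_adj hA u v).2 h3⟩
      · rw [iso_a] at h2
        omega
      · rw [iso_b] at h2
        omega
    · rw [iso_a] at h1
      omega
    · rw [iso_b] at h1
      omega

theorem pad_minDeg {c : ℝ} {k l : ℕ} (hl : 0 < l) (hk : c * (1 + k + l) ≤ k) {A : Inst}
    (hA : Valid A) : MinDeg c (pad k l A) := by
  intro u
  obtain ⟨f, hf, hadj⟩ := ext_deg (graph A) (k * A.length) (l * A.length)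
    (fun h => Nat.mul_pos hl (Nat.pos_of_ne_zero (fun h0 => by rw [h0] at h; simp at h)))
    ((iso k l A).symm u)
  have h1 : Set.range (fun a => iso k l A (f a)) ⊆ (graph (pad k l A)).neighborSet u := by
    rintro _ ⟨a, rfl⟩
    have h2 := (iso_adj hA _ _).1 (hadj a)
    rw [Equiv.apply_symm_apply] at h2
    exact h2
  have h2 : (Set.range (fun a => iso k l A (f a))).ncard = k * A.length := by
    have hinj : Function.Injective (fun a => iso k l A (f a)) := (iso k l A).injective.comp hf
    rw [← Set.image_univ, Set.ncard_image_of_injective _ hinj,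
      Set.ncard_univ, Nat.card_eq_fintype_card, Fintype.card_fin]
  have h3 := Set.ncard_le_ncard h1 (Set.toFinite _)
  rw [h2] at h3
  have h4 : ((k * A.length : ℕ) : ℝ) ≤ (((graph (pad k l A)).neighborSet u).ncard : ℝ) := by
    exact_mod_cast h3
  refine le_trans ?_ h4
  rw [pad_length]
  push_cast
  have h5 : (0 : ℝ) ≤ (A.length : ℝ) := Nat.cast_nonneg _
  nlinarith [mul_le_mul_of_nonneg_right hk h5]

/-! ### Polynomial time -/

theorem poly_entry {α : Type} [TEnc α] {A : α → Inst} {u v : α → ℕ} (hA : Poly A) (hu : Poly u)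
    (hv : Poly v) : Poly (fun a => entry (A a) (u a) (v a)) := by
  unfold entry
  exact NPC.Poly.getD (NPC.Poly.getD hA hu (NPC.Poly.const _)) hv (NPC.Poly.const _)

theorem poly_pad (k l : ℕ) : Poly (pad k l) := by
  unfold pad
  have hu : UPoly (fun A : Inst => A.length + (k * A.length + l * A.length)) :=
    UPoly.add (UPoly.length Poly.id) (UPoly.add (UPoly.mul (UPoly.const k) (UPoly.length Poly.id))
      (UPoly.mul (UPoly.const l) (UPoly.length Poly.id)))
  have hr : Poly (fun A : Inst => List.range (A.length + (k * A.length + l * A.length))) := hu.range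
  refine NPC.Poly.map (F := fun (A : Inst) (u : ℕ) =>
    (List.range (A.length + (k * A.length + l * A.length))).map (fun v =>
      adjE A.length (k * A.length) A u v)) hr ?_
  refine NPC.Poly.map (F := fun (p : Inst × ℕ) (v : ℕ) =>
    adjE p.1.length (k * p.1.length) p.1 p.2 v) (hr.comp (Poly.fst Poly.id)) ?_
  unfold adjE
  have h1 : Poly (fun x : (Inst × ℕ) × ℕ => x.1.1.length) := by fun_prop
  have h2 : Poly (fun x : (Inst × ℕ) × ℕ => x.1.1.length + k * x.1.1.length) := by fun_prop
  exact PP.dec (inst := _) (PP.and (PP.ne (by fun_prop) (by fun_prop)) (PP.or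
    (PP.and (PP.le h1 (by fun_prop)) (PP.lt (by fun_prop) h2)) (PP.or
    (PP.and (PP.le h1 (by fun_prop)) (PP.lt (by fun_prop) h2))
    (PP.and (PP.lt (by fun_prop) h1) (PP.and (PP.lt (by fun_prop) h1)
    (PP.bool (poly_entry (by fun_prop) (by fun_prop) (by fun_prop))))))))

/-! ### The result -/

/-- A function that decides whether the graph with adjacency matrix `A` has an `H`-factor, for all
adjacency matrices `A` with the property `Pr`. -/
def Decides {W : Type} (H : SimpleGraph W) (Pr : Inst → Prop) (D : List Bool → List Bool) : Prop :=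
  ∀ A, Valid A → Pr A → (D (bits A) = [true] ↔ HasFactor H (graph A))

theorem main_reduction {W : Type} [Finite W] (H : SimpleGraph W) (hconn : H.Connected) {α β : ℕ}
    (ht : Exp H α β) (hα : 0 < α) (I0 : Set W) (hI0 : H.IsIndepSet I0) (h0 : I0.ncard = α)
    (h1 : Nat.card W = α + β) {c : ℝ} (hc : c * (α + β) < β) :
    ∃ f : Inst → Inst, Poly f ∧ ∀ A, Valid A → Valid (f A) ∧ MinDeg c (f A) ∧
      (HasFactor H (graph A) ↔ HasFactor H (graph (f A))) := by
  classical
  have : Fintype W := Fintype.ofFinite W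
  have : Nonempty W := hconn.nonempty
  have c2 : Fintype.card {w // ¬ decide (w ∉ I0) = true} = α := by
    rw [← h0, Set.ncard_eq_toFinset_card', Fintype.card_subtype]
    congr 1
    ext w
    simp
  have c1 : Fintype.card {w // decide (w ∉ I0) = true} = β := by
    have h2 := Fintype.card_subtype_compl (fun w => decide (w ∉ I0) = true)
    have h3 := Fintype.card_subtype_le (fun w => decide (w ∉ I0) = true)
    rw [c2, ← Nat.card_eq_fintype_card (α := W), h1] at h2
    rw [← Nat.card_eq_fintype_card (α := W), h1] at h3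
    omega
  have hpos : 0 < β - c * (α + β) := by linarith
  obtain ⟨t, ht'⟩ := exists_nat_ge (c / (β - c * (α + β)))
  have hk : c * (1 + ((β * (t + 1) : ℕ) : ℝ) + ((α * (t + 1) : ℕ) : ℝ)) ≤
      ((β * (t + 1) : ℕ) : ℝ) := by
    rw [div_le_iff₀ hpos] at ht'
    push_cast
    nlinarith
  refine ⟨pad (β * (t + 1)) (α * (t + 1)), poly_pad _ _, fun A hA => ⟨pad_valid hA,
    pad_minDeg (Nat.mul_pos hα (Nat.succ_pos t)) hk hA, ?_⟩⟩
  rw [← factor_congr (iso (β * (t + 1)) (α * (t + 1)) A) (iso_adj hA), mul_assoc, mul_assoc]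
  constructor
  · refine ext_of_factor (χ := fun w => decide (w ∉ I0)) ?_ c1 c2
    intro u v huv
    by_contra hno
    push Not at hno
    simp only [ne_eq, decide_eq_true_eq, not_not] at hno
    exact hI0 hno.1 hno.2 huv.ne huv
  · exact factor_of_ext ht

/-- The graph `H` has at least one edge, it is connected, `I` is an independent set of `H`, and
either `H` is regular and `I` contains at least `(|H| - 1) / 2` vertices, or `I` contains `|H| / 2`
vertices and each edge of `H` belongs to a perfect matching of `H`. -/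
def Good {W : Type} (H : SimpleGraph W) (I : Set W) : Prop :=
  H.Connected ∧ (∃ u v, H.Adj u v) ∧ H.IsIndepSet I ∧
    (((∃ d : ℕ, ∀ v, (H.neighborSet v).ncard = d) ∧ Nat.card W ≤ 2 * I.ncard + 1) ∨
      (Nat.card W = 2 * I.ncard ∧
        ∀ u v, H.Adj u v → ∃ M : H.Subgraph, M.IsPerfectMatching ∧ M.Adj u v))

theorem Good.reduction {W : Type} [Finite W] {H : SimpleGraph W} {I : Set W} (h : Good H I)
    {c : ℝ} (hc : c < 1 - (I.ncard : ℝ) / (Nat.card W : ℝ)) :
    ∃ f : Inst → Inst, Poly f ∧ ∀ A, Valid A → Valid (f A) ∧ MinDeg c (f A) ∧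
      (HasFactor H (graph A) ↔ HasFactor H (graph (f A))) := by
  classical
  have : Fintype W := Fintype.ofFinite W
  obtain ⟨hconn, he, hI, h⟩ := h
  have htight : Tight H := by
    rcases h with ⟨⟨d, hd⟩, -⟩ | ⟨-, hM⟩
    · have hdeg : ∀ v, H.degree v = d := by
        intro v
        rw [← hd v, ← SimpleGraph.card_neighborSet_eq_degree, Set.ncard_eq_toFinset_card',
          Set.toFinset_card]
      refine tight_of_regular (d := d) ?_ hdeg hconn
      obtain ⟨u, v, huv⟩ := he
      rw [← hdeg u]
      exact (H.degree_pos_iff_exists_adj u).2 ⟨v, huv⟩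
    · exact tight_of_matchings hconn he hM
  have hW : 2 ≤ Nat.card W := by
    obtain ⟨u, v, huv⟩ := he
    rw [Nat.card_eq_fintype_card]
    exact Fintype.one_lt_card_iff.2 ⟨u, v, huv.ne⟩
  -- at most half of the vertices are in `I`
  have hle : 2 * I.ncard ≤ Nat.card W := by
    have h1 := (htight I.toFinset (Finset.univ \ I.toFinset) (fun u hu v huv => by
      rw [Finset.mem_sdiff]
      refine ⟨Finset.mem_univ _, fun hv => ?_⟩
      rw [Set.mem_toFinset] at hu hv
      exact hI hu hv huv.ne huv)).1
    rw [Finset.card_sdiff_of_subset (Finset.subset_univ _), Finset.card_univ,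
      ← Set.ncard_eq_toFinset_card'] at h1
    rw [Nat.card_eq_fintype_card]
    omega
  have hge : Nat.card W ≤ 2 * I.ncard + 1 := by
    rcases h with h | h
    · exact h.2
    · omega
  have hpos : 0 < I.ncard := by omega
  have hWr : (0 : ℝ) < (Nat.card W : ℝ) := by exact_mod_cast (by omega : 0 < Nat.card W)
  have hc' : c * (Nat.card W : ℝ) < (Nat.card W : ℝ) - (I.ncard : ℝ) := by
    have h1 := mul_lt_mul_of_pos_right hc hWr
    rw [sub_mul, one_mul, div_mul_cancel₀ _ hWr.ne'] at h1
    exact h1
  rcases Nat.lt_or_eq_of_le hle with hlt | heq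
  · have hW' : Nat.card W = 2 * I.ncard + 1 := by omega
    refine main_reduction H hconn (exp_odd htight hpos (by rw [← Nat.card_eq_fintype_card, hW']))
      hpos I hI rfl (by omega) ?_
    rw [hW'] at hc'
    push_cast at hc' ⊢
    linarith
  · refine main_reduction H hconn (exp_of_tight htight hpos) hpos I hI rfl (by omega) ?_
    rw [← heq] at hc'
    push_cast at hc' ⊢
    linarith

/-- **Factors in graphs of large minimum degree.** Let `H` be a finite connected graph with at least
one edge and `I` an independent set of `H` such that `H` is regular and `|I| ≥ (|H| - 1) / 2`, or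
such that `|I| = |H| / 2` and each edge of `H` belongs to a perfect matching. Let
`c < 1 - |I| / |H|`. There is a polynomial-time computable function `f` which assigns to each
adjacency matrix of a graph `G` the adjacency matrix of a graph with `n` vertices and minimum degree
at least `c n`, which has an `H`-factor if and only if `G` has one. So if the `H`-factor problem in
arbitrary graphs is `NP`-hard then so is `FACTOR(H, c)`, and if `FACTOR(H, c)` can be decided in
polynomial time then so can the `H`-factor problem in arbitrary graphs. -/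
theorem result {W : Type} [Finite W] (H : SimpleGraph W) (I : Set W) (hH : Good H I) {c : ℝ}
    (hc : c < 1 - (I.ncard : ℝ) / (Nat.card W : ℝ)) :
    (∃ f : Inst → Inst, Poly f ∧ ∀ A, Valid A → Valid (f A) ∧ MinDeg c (f A) ∧
      (HasFactor H (graph A) ↔ HasFactor H (graph (f A)))) ∧
    (NPHardOn Valid (fun A => HasFactor H (graph A)) →
      NPHardOn (fun A => Valid A ∧ MinDeg c A) (fun A => HasFactor H (graph A))) ∧
    ((∃ D, PolyTime D ∧ Decides H (MinDeg c) D) → ∃ D, PolyTime D ∧ Decides H (fun _ => True) D) := by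
  obtain ⟨f, hf, h⟩ := hH.reduction hc
  have hE : Poly (fun y : List Bool => match unbits Inst y with
      | none => ([] : List Bool)
      | some A => bits (f A)) :=
    (Poly.optCases (o := fun y : List Bool => unbits Inst y) (g := fun _ => ([] : List Bool))
      (h := fun (_ : List Bool) (A : Inst) => bits (f A)) poly_unbits (NPC.Poly.const _)
      (Med.poly_bits.comp (hf.comp (Poly.snd Poly.id)))).congr fun y => by
        cases unbits Inst y <;> rfl
  have hE' := H622R2.polyTime_of_poly_list hE
  refine ⟨⟨f, hf, h⟩, ?_, ?_⟩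
  · intro hh L hL
    obtain ⟨g, hg, hgp, hgL⟩ := hh L hL
    refine ⟨fun x => f (g x), ?_, fun x => ⟨(h _ (hgp x)).1, (h _ (hgp x)).2.1⟩,
      fun x => (hgL x).trans (h _ (hgp x)).2.2⟩
    have h1 := H642R2.TMSim.polyTime_comp hE' hg
    simpa only [unbits_bits] using h1
  · rintro ⟨D, hD, hdec⟩
    refine ⟨_, H642R2.TMSim.polyTime_comp hD hE', fun A hA _ => ?_⟩
    simp only [unbits_bits]
    exact (hdec _ (h A hA).1 (h A hA).2.1).trans (h A hA).2.2.symm

end Pool.Agent.Results.MP_298bb3_lc.TightGraphs
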